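import Pool.Agent.H95.RowVN

set_option autoImplicit false

open Pool.Agent.H95.RowVN
open scoped InnerProductSpace

theorem Pool.Agent.Results.MP_59d57e_an.Counter.result :
    ∃ (H : Type) (_ : NormedAddCommGroup H) (_ : InnerProductSpace ℂ H) (_ : CompleteSpace H)
      (k : Ball → H) (M : Fin 2 → H →L[ℂ] H) (T : Fin 2 → C3 →L[ℂ] C3),
      (∀ z w, ⟪k z, k w⟫_ℂ = szego z w) ∧ IsMult k M ∧ T 0 * T 1 = T 1 * T 0 ∧
      (∀ (m : ℕ) (P : Matrix (Fin 1) (Fin m) Pol) (c : ℝ), Bnd M P c → Bnd T P c) ∧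
      ∃ P : Matrix (Fin 2) (Fin 2) Pol, Bnd M P 1 ∧ ¬ Bnd T P 1 :=
  Pool.Agent.H95.RowVN.main
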